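import Pool.Agent.Lib.helper22.Weak

namespace Pool.Agent.Results.MP_c89e4d_an.Super

open RCLike Pool.Agent.Lib.helper22.Weak

variable (𝕜 : Type*) {X : Type*} [RCLike 𝕜] [NormedAddCommGroup X] [NormedSpace 𝕜 X]

def Slice (S : Set X) : Prop :=
  ∃ (f : X →L[𝕜] 𝕜) (α : ℝ), ‖f‖ = 1 ∧ 0 < α ∧ S = {y | ‖y‖ ≤ 1 ∧ 1 - α < re (f y)}

def Ccs (C : Set X) : Prop :=
  ∃ (n : ℕ) (S : Fin n → Set X) (l : Fin n → ℝ), (∀ i, Slice 𝕜 (S i)) ∧ (∀ i, 0 < l i) ∧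
    ∑ i, l i = 1 ∧ C = {z | ∃ y : Fin n → X, (∀ i, y i ∈ S i) ∧ z = ∑ i, (l i : 𝕜) • y i}

def RelWeakOpen (W : Set X) : Prop :=
  ∃ U : Set (WeakSpace 𝕜 X), IsOpen U ∧ W = {y | ‖y‖ ≤ 1 ∧ toWeakSpace 𝕜 X y ∈ U}

def Far (x : X) (C : Set X) : Prop := IsLUB ((fun y => ‖x - y‖) '' C) 2

theorem result [CompleteSpace X] (x : X) (hx : ‖x‖ = 1)
    (h : ∀ C, Ccs 𝕜 C → x ∈ C → Far x C) : ∀ W, RelWeakOpen 𝕜 W → x ∈ W → Far x W := by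
  rintro _ ⟨U, hU, rfl⟩ hW
  obtain ⟨m, Φ, η, hη, hΦ⟩ := wbasis hU hW.2
  refine ⟨?_, fun b hb => le_of_forall_pos_le_add fun ε hε => ?_⟩
  · rintro _ ⟨y, hy, rfl⟩
    linarith [norm_sub_le x y, hy.1]
  obtain ⟨z, z1, z2, z3⟩ := near x hx.le (fun n g η hn hη ε hε => by
    have a : ∀ j, ∃ S, Slice 𝕜 S ∧ x ∈ S ∧
        ∀ z ∈ S, ‖z‖ ≤ 1 ∧ re (g j x) - η < re (g j z) := fun j => by
      rcases eq_or_ne (g j) 0 with c | c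
      · obtain ⟨f, f1, f2⟩ := exists_dual_vector 𝕜 x (by simp [hx])
        exact ⟨_, ⟨f, 1, f1, one_pos, rfl⟩, ⟨hx.le, by simp [f2, hx]⟩,
          fun z hz => ⟨hz.1, by simpa [c] using hη⟩⟩
      · have p := norm_pos_iff.2 c
        have q : re (g j x) ≤ ‖g j‖ := (re_le_norm _).trans (((g j).le_opNorm x).trans_eq
          (by rw [hx, mul_one]))
        have e : ∀ z, 1 - (1 - ‖g j‖⁻¹ * (re (g j x) - η)) < re ((((‖g j‖⁻¹ : ℝ) : 𝕜) • g j) z) ↔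
            re (g j x) - η < re (g j z) := fun z => by
          rw [smul_apply, smul_eq_mul, re_ofReal_mul, sub_sub_cancel]
          exact mul_lt_mul_iff_right₀ (inv_pos.2 p)
        refine ⟨_, ⟨((‖g j‖⁻¹ : ℝ) : 𝕜) • g j, 1 - ‖g j‖⁻¹ * (re (g j x) - η), ?_, ?_, rfl⟩,
          ⟨hx.le, (e x).2 (by linarith)⟩, fun z hz => ⟨hz.1, (e z).1 hz.2⟩⟩
        · rw [norm_smul, norm_ofReal, abs_of_pos (inv_pos.2 p), inv_mul_cancel₀ p.ne']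
        · rw [sub_pos, inv_mul_lt_iff₀ p]; linarith
    choose S s1 s2 s3 using a
    have n0 : (n : ℝ) ≠ 0 := by positivity
    have l1 : ∑ _i : Fin n, (1 / n : ℝ) = 1 := by simp [n0]
    obtain ⟨_, ⟨_, ⟨y, hy, rfl⟩, rfl⟩, b1, -⟩ := (h _ ⟨n, S, fun _ => 1 / n, s1,
      fun _ => by positivity, l1, rfl⟩ ⟨fun _ => x, s2, by
        rw [← Finset.sum_smul, ← ofReal_sum, l1, ofReal_one, one_smul]⟩).exists_between
      (sub_lt_self 2 hε)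
    exact ⟨y, fun j => s3 j _ (hy j), b1⟩) Φ hη hε
  linarith [hb ⟨z, ⟨z1, hΦ z z2⟩, rfl⟩]

end Pool.Agent.Results.MP_c89e4d_an.Super
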